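import Pool.Agent.helper1.FI4.SpecHT

/-!
# Row fi4:DPX: the conjugates of the generalised decomposition numbers
-/

set_option autoImplicit false

namespace Pool.Agent.FI4

open Pool.Agent.helper58.DC Pool.Agent.DI Pool.Agent.GR Pool.Agent.OB Pool.Agent.DR Pool.Agent.FI Pool.Agent.FI3

/-- `u` and `u ^ s` have the same centraliser if `u ^ n = 1` and `s` is prime to `n` -/
theorem DPX_Cz {G : Type} [Group G] {L : Subgroup G} {u : G} {n s : ℕ} (hun : u ^ n = 1) (hs : s.Coprime n) :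
    Cz L (u ^ s) = Cz L u := by
  have hd : orderOf u ∣ n := orderOf_dvd_of_pow_eq_one hun
  obtain ⟨m, hm⟩ := exists_pow_eq_self_of_coprime (Nat.Coprime.coprime_dvd_right hd hs)
  ext x
  rw [mem_Cz, mem_Cz]
  constructor
  · rintro ⟨h1, h2⟩
    refine ⟨h1, ?_⟩
    have h3 : Commute (u ^ s) x := h2
    have h4 := h3.pow_left m
    rw [hm] at h4
    exact h4
  · rintro ⟨h1, h2⟩
    have h3 : Commute u x := h2
    exact ⟨h1, h3.pow_left s⟩

/-- Row DPX. -/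
theorem DPX (hQRS : QRS_stmt) (hQCE : QCE_stmt) : DPX_stmt := by
  classical
  intro G _ _ M L θ ψ hψ u hu n hn hun ζ hζ
  have : NeZero n := ⟨hn.ne'⟩
  have huK : u ∈ Cz L u := mem_Cz.2 ⟨hu, rfl⟩
  have hcen : Cen (Cz L u) u := fun l hl => ((mem_Cz.1 hl).2).symm
  have hpow : ∀ φ ∈ IrrOn (Cz L u), ∀ s : ℕ, φ (u ^ s) / φ 1 = (φ u / φ 1) ^ s := by
    intro φ hφ s
    have h0 : φ 1 ≠ 0 := IrrOn_ne hφ
    induction s with
    | zero => rw [pow_zero, pow_zero, div_self h0]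
    | succ s ih =>
      have h1 := (hQCE G (Cz L u) u huK hcen φ hφ).1 (u ^ s)
      rw [pow_succ' (φ u / φ 1), ← ih, pow_succ' u, div_mul_div_comm, ← h1, mul_div_mul_right _ _ h0]
  have hroot : ∀ φ ∈ IrrOn (Cz L u), ∃ e : ℕ, φ u / φ 1 = ζ ^ e := by
    intro φ hφ
    have h1 := hpow φ hφ n
    rw [hun, div_self (IrrOn_ne hφ)] at h1
    obtain ⟨i, -, hi⟩ := hζ.eq_pow_of_pow_eq_one h1.symm
    exact ⟨i, hi.symm⟩
  have hKL : Cz L u ≤ L := fun x hx => (mem_Cz.1 hx).1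
  have hm := (hQRS G L (Cz L u) hKL ψ hψ).1
  choose! e he using hroot
  choose! m hm using hm
  have hfin : (Bl M (Cz L u) θ).Finite := (IrrOn_fin (Cz L u)).subset fun φ h => h.1
  refine ⟨∑ φ ∈ hfin.toFinset, Polynomial.C (m φ : ℤ) * Polynomial.X ^ (e φ), ?_⟩
  intro s hs
  rw [DPX_Cz hun hs]
  unfold dd
  rw [finsum_mem_eq_finite_toFinset_sum _ hfin, map_sum]
  refine Finset.sum_congr rfl fun φ hφ => ?_
  have hφ1 : φ ∈ IrrOn (Cz L u) := ((Set.Finite.mem_toFinset hfin).1 hφ).1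
  rw [hpow φ hφ1 s, hm φ hφ1, he φ hφ1, map_mul, map_pow, Polynomial.aeval_C, Polynomial.aeval_X, ← pow_mul, ← pow_mul,
    mul_comm (e φ) s]
  congr 1

end Pool.Agent.FI4
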