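import Pool.Agent.helper95.FI4.SpecB

/-!
# Row fi4:KZ4: the generalised decomposition numbers of the characters of height zero are not in `M`
-/

set_option autoImplicit false

namespace Pool.Agent.FI4

open Pool.Agent.helper58.DC Pool.Agent.DI Pool.Agent.GR Pool.Agent.OB Pool.Agent.DR Pool.Agent.FI Pool.Agent.FI3

theorem KZ4_cz_bot (G : Type) [Group G] : cz (⊥ : Subgroup G) = ⊤ := by
  rw [eq_top_iff]
  intro g _
  rw [Subgroup.mem_centralizer_iff]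
  intro h hh
  rw [SetLike.mem_coe, Subgroup.mem_bot] at hh
  rw [hh, one_mul, mul_one]

theorem KZ4_lco (hLCO : LCO_stmt) {p : ℕ} {M : Ideal (integralClosure ℤ ℂ)} {D : Type} [Group D] [Finite D]
    (com : ∀ a b : D, a * b = b * a) (hS : Setup p M) (hD : IsPGroup p D) {f : D → ℂ} (hf : LGC f) (u : D) :
    InM M (f u - f 1) := by
  let _ : CommGroup D := { (inferInstance : Group D) with mul_comm := com }
  have := Fintype.ofFinite D
  exact (hLCO p M D f hS hD hf).2.2 u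

/-- Row KZ4. -/
theorem KZ4 (hQID : QID_stmt) (hNU : NU4_stmt) (hQHT : QHT_stmt) (hQEU : QEU_stmt) (hQCG : QCG_stmt) (hLCG : LCG_stmt)
    (hLCO : LCO_stmt) : KZ4_stmt := by
  intro p M hS hp2 G _ _ D x θ χ lo u hu ψ hψ a hDa hdef hInM
  have hp := hS.pr
  have : Fact p.Prime := Fact.mk hp
  have hcz := KZ4_cz_bot G
  obtain ⟨i, hi⟩ := hQID p M hS G D x θ χ lo.rt ⊥ bot_le
  obtain ⟨n, hn⟩ := hNU p M hS hp2 G D x θ χ lo ⊥ bot_le i hi
  obtain ⟨-, h1, -⟩ := hn u hu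
  have hψ' : ψ ∈ Bl M (cz (⊥ : Subgroup G)) θ := by
    rw [hcz]
    exact hψ
  have h2 := h1 ψ hψ'.1
  rw [hcz] at h2
  have h3 : InM M (ev ψ i u / θ 1) := by
    rw [h2]
    exact InM.mul_left hS (IntAt.intCast hS (n u)) hInM
  have h4 : LGC (fun u : D => ev ψ i u / θ 1) := QLA_h1 hLCG hQEU hQCG hS lo.rt bot_le hi hψ'.1
  have h5 := KZ4_lco hLCO (QLA_D_com lo.rt) hS lo.rt.dfa.pgrp h4 ⟨u, hu.1⟩
  have h6 : InM M (ev ψ i 1 / θ 1) := by
    have h7 := InM.sub hS h3 h5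
    have h8 : ev ψ i u / θ 1 - (ev ψ i ((⟨u, hu.1⟩ : D) : G) / θ 1 - ev ψ i ((1 : D) : G) / θ 1) = ev ψ i 1 / θ 1 := by
      rw [OneMemClass.coe_one]
      ring
    rw [← h8]
    exact h7
  obtain ⟨N, d, hN, hd, hψ1, hev, hv⟩ := hQHT p M hS G D x θ χ lo.rt ⊥ bot_le i hi ψ hψ'
  rw [hev, mul_div_cancel_right₀ _ (IrrOn_ne lo.rt.th)] at h6
  have h7 : p ∣ N := (InM.natCast hS N).1 h6
  have h8 : 1 ≤ padicValNat p N := one_le_padicValNat_of_dvd hN h7
  obtain ⟨d', hd', hdv⟩ := hdef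
  have h9 : d = d' := by
    rw [hψ1] at hd'
    exact_mod_cast hd'
  rw [hcz] at hv
  rw [hDa, padicValNat.prime_pow, h9] at hv
  omega

end Pool.Agent.FI4
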